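import Pool.Agent.H420.TDSHard
import Pool.Agent.H420.TDSMem

/-!
# Deciding whether the total domination number equals the sub-total domination number

The reduction from 3SAT (`v` variables, `m` clauses) uses a clique of the `2 v` literals, a vertex
for each clause, adjacent to its three literals, and `D = v (2 v + m)` leaves for each variable,
adjacent to its two literals.  The sub-total domination number of this graph is `v`, and a total
dominating set of size `v` is the set of true literals of a satisfying assignment.
-/

namespace Pool.Agent.Results.MP_bfbf95_lc.TDSEqNPComplete

open Pool.Agent.NPC Pool.Agent.H420.TDS

/-- **TDS-EQ is NP-complete**: deciding whether a graph without isolated vertices has equal total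
and sub-total domination numbers is in NP and NP-hard. -/
theorem result : InNPP TDSEq ∧ NPHardP TDSEq := ⟨inNPP, npHard⟩

end Pool.Agent.Results.MP_bfbf95_lc.TDSEqNPComplete
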